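import Mathlib

namespace Pool.Agent.Results.MP_1ea425_al.Square

abbrev V := ℕ → ℤ
abbrev E := Module.End ℤ V
abbrev P := ℕ → E

/-- restriction to the residue class `i` mod 5 -/
def t (i : ℕ) : E where
  toFun v m := v (5 * m + i)
  map_add' _ _ := rfl
  map_smul' _ _ := rfl

/-- extension by zero from the residue class `i` mod 5 -/
def s (i : ℕ) : E where
  toFun v n := if n % 5 = i then v (n / 5) else 0
  map_add' v w := by
    funext n; by_cases h : n % 5 = i <;> simp [h]
  map_smul' c v := by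
    funext n; by_cases h : n % 5 = i <;> simp [h]

/-- diagonal operator -/
def D (a : ℕ → ℤ) : E where
  toFun v n := a n * v n
  map_add' v w := by funext n; simp [mul_add]
  map_smul' c v := by funext n; simp; ring

lemma tDs (a : ℕ → ℤ) (i : ℕ) (hi : i < 5) : t i * D a * s i = D (fun m => a (5 * m + i)) := by
  refine LinearMap.ext fun v => funext fun m => ?_
  have h1 : (5 * m + i) % 5 = i := by omega
  have h2 : (5 * m + i) / 5 = m := by omega
  simp [t, s, D, h1, h2]

/-- the self-referential diagonal -/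
def d (x n : ℕ) : ℤ :=
  if h : n % 5 = 0 then (if x % 2 = 0 then 1 else 0)
  else if n % 5 = 1 then d (2 * x) (n / 5)
  else if n % 5 = 2 then d (2 * x + 1) (n / 5)
  else if n % 5 = 3 then (if x % 2 = 0 then d (x / 2) (n / 5) else 0)
  else (if x % 2 = 0 then 0 else d (x / 2) (n / 5))
termination_by n
decreasing_by all_goals omega

lemma d0 (x m : ℕ) : d x (5 * m + 0) = if x % 2 = 0 then 1 else 0 := by
  rw [d]; have : (5 * m + 0) % 5 = 0 := by omega
  simp only [this, dite_true]
lemma d1 (x m : ℕ) : d x (5 * m + 1) = d (2 * x) m := by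
  rw [d]; have : (5 * m + 1) % 5 = 1 := by omega
  have h2 : (5 * m + 1) / 5 = m := by omega
  simp [this, h2]
lemma d2 (x m : ℕ) : d x (5 * m + 2) = d (2 * x + 1) m := by
  rw [d]; have : (5 * m + 2) % 5 = 2 := by omega
  have h2 : (5 * m + 2) / 5 = m := by omega
  simp [this, h2]
lemma d3 (x m : ℕ) : d x (5 * m + 3) = if x % 2 = 0 then d (x / 2) m else 0 := by
  rw [d]; have : (5 * m + 3) % 5 = 3 := by omega
  have h2 : (5 * m + 3) / 5 = m := by omega
  simp [this, h2]
lemma d4 (x m : ℕ) : d x (5 * m + 4) = if x % 2 = 0 then 0 else d (x / 2) m := by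
  rw [d]; have : (5 * m + 4) % 5 = 4 := by omega
  have h2 : (5 * m + 4) / 5 = m := by omega
  simp [this, h2]

def F : P := fun x => D (d x)

def p0 : P →+* P := RingHom.pi fun x => Pi.evalRingHom (fun _ : ℕ => E) (2 * x)
def p1 : P →+* P := RingHom.pi fun x => Pi.evalRingHom (fun _ : ℕ => E) (2 * x + 1)
lemma p0_apply (f : P) (x : ℕ) : p0 f x = f (2 * x) := rfl
lemma p1_apply (f : P) (x : ℕ) : p1 f x = f (2 * x + 1) := rfl

def i0 (f : P) : P := fun x => if x % 2 = 0 then f (x / 2) else 0
def i1 (f : P) : P := fun x => if x % 2 = 0 then 0 else f (x / 2)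

def G : Set P :=
  insert F ((Set.range fun i : Fin 5 => fun _ : ℕ => t i) ∪ Set.range fun i : Fin 5 => fun _ : ℕ => s i)

lemma G_fin : G.Finite := ((Set.finite_range _).union (Set.finite_range _)).insert _

def R : Subring P := Subring.closure G

lemma t_mem (i : Fin 5) : (fun _ : ℕ => t i) ∈ R :=
  Subring.subset_closure (Or.inr (Or.inl ⟨i, rfl⟩))
lemma s_mem (i : Fin 5) : (fun _ : ℕ => s i) ∈ R :=
  Subring.subset_closure (Or.inr (Or.inr ⟨i, rfl⟩))
lemma F_mem : F ∈ R := Subring.subset_closure (Or.inl rfl)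

lemma comp_mem (i : Fin 5) : (fun x => D (fun m => d x (5 * m + i)) : P) ∈ R := by
  have := R.mul_mem (R.mul_mem (t_mem i) F_mem) (s_mem i)
  convert this using 1
  funext x
  exact (tDs (d x) i i.2).symm

lemma D_one : D (fun _ => 1) = 1 := LinearMap.ext fun v => funext fun m => by simp [D]
lemma D_zero : D (fun _ => 0) = 0 := LinearMap.ext fun v => funext fun m => by simp [D]

lemma e_mem : i0 1 ∈ R := by
  have := comp_mem 0
  convert this using 1
  funext x
  have : (fun m => d x (5 * m + ((0 : Fin 5) : ℕ))) = fun _ => if x % 2 = 0 then 1 else 0 :=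
    funext fun m => d0 x m
  rw [this]
  by_cases h : x % 2 = 0 <;> simp [i0, h, D_one, D_zero]

lemma e'_mem : i1 1 ∈ R := by
  have := R.sub_mem R.one_mem e_mem
  convert this using 1
  funext x
  by_cases h : x % 2 = 0 <;> simp [i0, i1, h]

lemma p0F : p0 F ∈ R := by
  have := comp_mem 1
  convert this using 1
  funext x
  have : (fun m => d x (5 * m + ((1 : Fin 5) : ℕ))) = d (2 * x) := funext fun m => d1 x m
  rw [this]; rfl

lemma p1F : p1 F ∈ R := by
  have := comp_mem 2
  convert this using 1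
  funext x
  have : (fun m => d x (5 * m + ((2 : Fin 5) : ℕ))) = d (2 * x + 1) := funext fun m => d2 x m
  rw [this]; rfl

lemma i0F : i0 F ∈ R := by
  have := comp_mem 3
  convert this using 1
  funext x
  have : (fun m => d x (5 * m + ((3 : Fin 5) : ℕ))) =
      fun m => if x % 2 = 0 then d (x / 2) m else 0 := funext fun m => d3 x m
  rw [this]
  by_cases h : x % 2 = 0 <;> simp [i0, h, D_zero, F]

lemma i1F : i1 F ∈ R := by
  have := comp_mem 4
  convert this using 1
  funext x
  have : (fun m => d x (5 * m + ((4 : Fin 5) : ℕ))) =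
      fun m => if x % 2 = 0 then 0 else d (x / 2) m := funext fun m => d4 x m
  rw [this]
  by_cases h : x % 2 = 0 <;> simp [i1, h, D_zero, F]

lemma p0_mem {f : P} (hf : f ∈ R) : p0 f ∈ R := by
  have : R ≤ R.comap p0 := by
    refine Subring.closure_le.2 ?_
    rintro g (rfl | ⟨i, rfl⟩ | ⟨i, rfl⟩)
    · exact p0F
    · exact t_mem i
    · exact s_mem i
  exact this hf

lemma p1_mem {f : P} (hf : f ∈ R) : p1 f ∈ R := by
  have : R ≤ R.comap p1 := by
    refine Subring.closure_le.2 ?_
    rintro g (rfl | ⟨i, rfl⟩ | ⟨i, rfl⟩)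
    · exact p1F
    · exact t_mem i
    · exact s_mem i
  exact this hf

lemma i0_add (f g : P) : i0 (f + g) = i0 f + i0 g := by
  funext x; by_cases h : x % 2 = 0 <;> simp [i0, h]
lemma i0_mul (f g : P) : i0 (f * g) = i0 f * i0 g := by
  funext x; by_cases h : x % 2 = 0 <;> simp [i0, h]
lemma i0_neg (f : P) : i0 (-f) = -i0 f := by
  funext x; by_cases h : x % 2 = 0 <;> simp [i0, h]
lemma i0_zero : i0 0 = 0 := by
  funext x; by_cases h : x % 2 = 0 <;> simp [i0, h]
lemma i0_const (c : E) : i0 (fun _ => c) = i0 1 * fun _ => c := by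
  funext x; by_cases h : x % 2 = 0 <;> simp [i0, h]
lemma i1_add (f g : P) : i1 (f + g) = i1 f + i1 g := by
  funext x; by_cases h : x % 2 = 0 <;> simp [i1, h]
lemma i1_mul (f g : P) : i1 (f * g) = i1 f * i1 g := by
  funext x; by_cases h : x % 2 = 0 <;> simp [i1, h]
lemma i1_neg (f : P) : i1 (-f) = -i1 f := by
  funext x; by_cases h : x % 2 = 0 <;> simp [i1, h]
lemma i1_zero : i1 0 = 0 := by
  funext x; by_cases h : x % 2 = 0 <;> simp [i1, h]
lemma i1_const (c : E) : i1 (fun _ => c) = i1 1 * fun _ => c := by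
  funext x; by_cases h : x % 2 = 0 <;> simp [i1, h]

lemma i0_mem {f : P} (hf : f ∈ R) : i0 f ∈ R := by
  induction hf using Subring.closure_induction with
  | mem g hg =>
    rcases hg with rfl | ⟨i, rfl⟩ | ⟨i, rfl⟩
    · exact i0F
    · rw [i0_const]; exact R.mul_mem e_mem (t_mem i)
    · rw [i0_const]; exact R.mul_mem e_mem (s_mem i)
  | zero => rw [i0_zero]; exact R.zero_mem
  | one => exact e_mem
  | add f g _ _ hf hg => rw [i0_add]; exact R.add_mem hf hg
  | neg f _ hf => rw [i0_neg]; exact R.neg_mem hf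
  | mul f g _ _ hf hg => rw [i0_mul]; exact R.mul_mem hf hg

lemma i1_mem {f : P} (hf : f ∈ R) : i1 f ∈ R := by
  induction hf using Subring.closure_induction with
  | mem g hg =>
    rcases hg with rfl | ⟨i, rfl⟩ | ⟨i, rfl⟩
    · exact i1F
    · rw [i1_const]; exact R.mul_mem e'_mem (t_mem i)
    · rw [i1_const]; exact R.mul_mem e'_mem (s_mem i)
  | zero => rw [i1_zero]; exact R.zero_mem
  | one => exact e'_mem
  | add f g _ _ hf hg => rw [i1_add]; exact R.add_mem hf hg
  | neg f _ hf => rw [i1_neg]; exact R.neg_mem hf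
  | mul f g _ _ hf hg => rw [i1_mul]; exact R.mul_mem hf hg

def phi : R →+* R × R :=
  RingHom.prod ((p0.comp R.subtype).codRestrict R fun r => p0_mem r.2)
    ((p1.comp R.subtype).codRestrict R fun r => p1_mem r.2)

lemma phi_bij : Function.Bijective phi := by
  constructor
  · intro a b h
    have h0 : p0 a.1 = p0 b.1 := congrArg (fun z : R × R => z.1.1) h
    have h1 : p1 a.1 = p1 b.1 := congrArg (fun z : R × R => z.2.1) h
    refine Subtype.ext (funext fun x => ?_)
    rcases Nat.even_or_odd' x with ⟨y, rfl | rfl⟩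
    · exact congrFun h0 y
    · exact congrFun h1 y
  · rintro ⟨a, b⟩
    refine ⟨⟨i0 a.1 + i1 b.1, R.add_mem (i0_mem a.2) (i1_mem b.2)⟩, ?_⟩
    refine Prod.ext (Subtype.ext (funext fun x => ?_)) (Subtype.ext (funext fun x => ?_))
    · change i0 a.1 (2 * x) + i1 b.1 (2 * x) = a.1 x
      have h1 : 2 * x % 2 = 0 := by omega
      have h2 : 2 * x / 2 = x := by omega
      simp [i0, i1, h1, h2]
    · change i0 a.1 (2 * x + 1) + i1 b.1 (2 * x + 1) = b.1 x
      have h1 : (2 * x + 1) % 2 = 1 := by omega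
      have h2 : (2 * x + 1) / 2 = x := by omega
      simp [i0, i1, h1, h2]

theorem result : ∃ (R : Type) (_ : Ring R), Nontrivial R ∧
    (∃ S : Finset R, Subring.closure (S : Set R) = ⊤) ∧ Nonempty (R ≃+* R × R) := by
  refine ⟨R, inferInstance, ?_, ?_, ⟨RingEquiv.ofBijective phi phi_bij⟩⟩
  · refine ⟨⟨0, 1, fun h => ?_⟩⟩
    have h1 : (0 : P) = 1 := congrArg Subtype.val h
    have h2 := congrFun (LinearMap.congr_fun (congrFun h1 0) (fun _ => 1)) 0
    simp at h2
  · have hfin : (Subtype.val ⁻¹' G : Set R).Finite :=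
      G_fin.preimage Subtype.val_injective.injOn
    refine ⟨hfin.toFinset, ?_⟩
    rw [Set.Finite.coe_toFinset, eq_top_iff]
    rintro ⟨f, hf⟩ -
    induction hf using Subring.closure_induction with
    | mem g hg => exact Subring.subset_closure hg
    | zero => exact Subring.zero_mem _
    | one => exact Subring.one_mem _
    | add f g _ _ hf hg => exact Subring.add_mem _ hf hg
    | neg f _ hf => exact Subring.neg_mem _ hf
    | mul f g _ _ hf hg => exact Subring.mul_mem _ hf hg

end Pool.Agent.Results.MP_1ea425_al.Square
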